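import Pool.Agent.E8helper61.SI.Stm

/-! Project SI, piece FAR. -/

set_option autoImplicit false

open Finset

namespace Pool.Agent.E8helper97.SI

open Pool.Agent.E8helper61.SI

theorem choose_two_add (m j : ℕ) : (m + j).choose 2 = m.choose 2 + j.choose 2 + m * j := by
  induction j with
  | zero => simp
  | succ j ih =>
    rw [← Nat.add_assoc, Nat.choose_succ_succ' (m + j) 1, ih, Nat.choose_succ_succ' j 1]
    simp only [Nat.choose_one_right]
    ring

theorem ed_inter {V : Type} [DecidableEq V] (R S : Finset V) : Ed R ∩ Ed S = Ed (R ∩ S) := by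
  ext x
  unfold Ed
  rw [mem_inter, mem_powersetCard, mem_powersetCard, mem_powersetCard, subset_inter_iff]
  tauto

theorem ed_card {V : Type} (R : Finset V) : (Ed R).card = R.card.choose 2 := by
  unfold Ed
  rw [card_powersetCard]

theorem card_union_ed {V : Type} [DecidableEq V] {R S : Finset V} {r j : ℕ} (hR : R.card = r)
    (hS : S.card = r) (hj : (S \ R).card = j) (hjr : j ≤ r) :
    (Ed R ∪ Ed S).card = r.choose 2 + (j * (r - j) + j.choose 2) := by
  have h1 := card_union_add_card_inter (Ed R) (Ed S)
  rw [ed_inter, ed_card, ed_card, ed_card, hR, hS] at h1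
  have h2 : (R ∩ S).card = r - j := by
    have := card_sdiff_add_card_inter S R
    rw [inter_comm]
    omega
  rw [h2] at h1
  have h3 := choose_two_add (r - j) j
  rw [Nat.sub_add_cancel hjr] at h3
  have h4 : j * (r - j) = (r - j) * j := Nat.mul_comm _ _
  omega

theorem count_disj {β : Type} [DecidableEq β] (Ω E : Finset β) (hE : E ⊆ Ω) :
    (Ω.powerset.filter fun x => Disjoint x E).card * 2 ^ E.card = 2 ^ Ω.card := by
  have h1 : (Ω.powerset.filter fun x => Disjoint x E) = (Ω \ E).powerset := by
    ext x
    rw [mem_filter, mem_powerset, mem_powerset, subset_sdiff]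
  rw [h1, card_powerset, ← pow_add]
  congr 1
  have := card_sdiff_add_card_eq_card hE
  omega

theorem count_S {V : Type} [DecidableEq V] [Fintype V] {r j : ℕ} {R : Finset V}
    (hR : R.card = r) :
    (((univ : Finset V).powersetCard r).filter fun S => (S \ R).card = j).card ≤
      r.choose j * (Fintype.card V - r).choose j := by
  have h1 : (R.powersetCard j ×ˢ ((univ : Finset V) \ R).powersetCard j).card =
      r.choose j * (Fintype.card V - r).choose j := by
    rw [card_product, card_powersetCard, card_powersetCard, hR, card_univ_sdiff, hR]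
  rw [← h1]
  apply card_le_card_of_injOn (fun S => (R \ S, S \ R))
  · intro S hS
    rw [mem_coe, mem_filter, mem_powersetCard] at hS
    obtain ⟨⟨-, hS⟩, hj⟩ := hS
    rw [mem_coe, mem_product, mem_powersetCard, mem_powersetCard]
    refine ⟨⟨sdiff_subset, ?_⟩, sdiff_subset_sdiff (subset_univ _) (Subset.refl _), hj⟩
    have e1 := card_sdiff_add_card_inter S R
    have e2 := card_sdiff_add_card_inter R S
    rw [inter_comm] at e2
    show (R \ S).card = j
    omega
  · intro S hS T hT h
    simp only [Prod.mk.injEq] at h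
    obtain ⟨h1, h2⟩ := h
    ext x
    by_cases hx : x ∈ R
    · have := Finset.ext_iff.1 h1 x
      rw [mem_sdiff, mem_sdiff] at this
      tauto
    · have := Finset.ext_iff.1 h2 x
      rw [mem_sdiff, mem_sdiff] at this
      tauto

theorem far : FarStatement := by
  intro V _ _ r j hjr
  classical
  set Ω : Finset (Finset V) := Ed (univ : Finset V) with hΩ
  have hEd : ∀ R : Finset V, Ed R ⊆ Ω := by
    intro R
    rw [hΩ]
    unfold Ed
    exact powersetCard_mono (subset_univ R)
  have hΩc : Ω.card = (Fintype.card V).choose 2 := by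
    rw [hΩ, ed_card, card_univ]
  set P : Finset ((_ : Finset V) × Finset V) := ((univ : Finset V).powersetCard r).sigma
    fun R => ((univ : Finset V).powersetCard r).filter fun S => (S \ R).card = j with hP
  have hPc : P.card ≤ (Fintype.card V).choose r * (r.choose j * (Fintype.card V - r).choose j) := by
    rw [hP, card_sigma]
    refine (sum_le_card_nsmul _ _ (r.choose j * (Fintype.card V - r).choose j) ?_).trans ?_
    · intro R hR
      exact count_S (mem_powersetCard.1 hR).2
    · rw [card_powersetCard, card_univ, smul_eq_mul]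
  have hsub : (Ω.powerset.filter (fun x => ∃ R S : Finset V, R.card = r ∧ S.card = r ∧
      Disjoint x (Ed R) ∧ Disjoint x (Ed S) ∧ (S \ R).card = j)) ⊆
      P.biUnion fun p => Ω.powerset.filter fun x => Disjoint x (Ed p.1 ∪ Ed p.2) := by
    intro x hx
    rw [mem_filter] at hx
    obtain ⟨hx, R, S, hR, hS, h1, h2, h3⟩ := hx
    rw [mem_biUnion]
    refine ⟨⟨R, S⟩, ?_, ?_⟩
    · rw [hP, mem_sigma, mem_powersetCard, mem_filter, mem_powersetCard]
      exact ⟨⟨subset_univ _, hR⟩, ⟨subset_univ _, hS⟩, h3⟩
    · rw [mem_filter, disjoint_union_right]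
      exact ⟨hx, h1, h2⟩
  have h1 := (card_le_card hsub).trans card_biUnion_le
  rw [← pow_add]
  calc _ ≤ (∑ p ∈ P, (Ω.powerset.filter fun x => Disjoint x (Ed p.1 ∪ Ed p.2)).card) *
        2 ^ (r.choose 2 + (j * (r - j) + j.choose 2)) := Nat.mul_le_mul_right _ (by convert h1)
    _ = ∑ p ∈ P, (Ω.powerset.filter fun x => Disjoint x (Ed p.1 ∪ Ed p.2)).card *
        2 ^ (r.choose 2 + (j * (r - j) + j.choose 2)) := by rw [sum_mul]
    _ = ∑ p ∈ P, 2 ^ (Fintype.card V).choose 2 := by
        refine sum_congr rfl fun p hp => ?_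
        rw [hP, mem_sigma, mem_powersetCard, mem_filter, mem_powersetCard] at hp
        rw [← card_union_ed hp.1.2 hp.2.1.2 hp.2.2 hjr, ← hΩc]
        exact count_disj Ω _ (union_subset (hEd _) (hEd _))
    _ = P.card * 2 ^ (Fintype.card V).choose 2 := by rw [sum_const, smul_eq_mul]
    _ ≤ _ := by
        rw [Nat.mul_comm]
        exact Nat.mul_le_mul_left _ hPc

end Pool.Agent.E8helper97.SI
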